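import Mathlib

/-!
# The modal logic of general game models

We determine the modal logic of general game models (submodels of full game models) in the
language with the three families of modalities `⟨≤ᵢ⟩`, `⟨∼ᵢ⟩`, `⟨≈ᵢ⟩`, for every set `N` of at
least two players.  The logic is axiomatised by S4 for every `≤ᵢ`, S5 for every `∼ᵢ` and every
`≈ᵢ`, the inclusion axioms `⟨≈ᵢ⟩φ → ⟨∼ⱼ⟩φ` (`i ≠ j`) and, when `N = {i, j}` has exactly two
elements, also `⟨∼ⱼ⟩φ → ⟨≈ᵢ⟩φ`.
-/

universe u

namespace Pool.Agent.Results.MP_4a7d17_lc.GGMComplete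

/-- Indices of the modal operators: preference `≤ᵢ`, epistemic indistinguishability `∼ᵢ` and
action freedom `≈ᵢ`, one of each kind for every player `i`. -/
inductive Ix (N : Type) : Type
  | le : N → Ix N
  | sim : N → Ix N
  | app : N → Ix N

/-- The language `𝓛_N`: propositional letters (indexed by `ℕ`), negation, disjunction and the
diamonds `⟨≤ᵢ⟩`, `⟨∼ᵢ⟩`, `⟨≈ᵢ⟩` for every player `i`. -/
inductive Form (N : Type) : Type
  | letter : ℕ → Form N
  | neg : Form N → Form N
  | or : Form N → Form N → Form N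
  | dia : Ix N → Form N → Form N

variable {N : Type}

namespace Form

/-- Material implication `φ → ψ := ¬φ ∨ ψ`. -/
def imp (φ ψ : Form N) : Form N := or (neg φ) ψ

/-- Conjunction `φ ∧ ψ := ¬(¬φ ∨ ¬ψ)`. -/
def conj₂ (φ ψ : Form N) : Form N := neg (or (neg φ) (neg ψ))

/-- The dual box `[m]φ := ¬⟨m⟩¬φ`. -/
def box (m : Ix N) (φ : Form N) : Form N := neg (dia m (neg φ))

end Form

open Form

/-- A full game model for the player set `N`: nonempty action sets `A i`, a reflexive and
transitive preference relation `le i` on strategy profiles `σ : ∀ i, A i` for each player, and a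
valuation `V` of the propositional letters.  The relations `∼ᵢ` and `≈ᵢ` are not data: they are
computed from the profiles, see `Sat`. -/
structure FullGameModel (N : Type) where
  /-- the action sets -/
  A : N → Type u
  /-- action sets are nonempty -/
  nonempty : ∀ i, Nonempty (A i)
  /-- the preference relations: `le i σ τ` says that player `i` values `τ` at least as much
  as `σ` -/
  le : N → (∀ i, A i) → (∀ i, A i) → Prop
  /-- preferences are reflexive -/
  le_refl : ∀ i σ, le i σ σ
  /-- preferences are transitive -/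
  le_trans : ∀ i σ τ ρ, le i σ τ → le i τ ρ → le i σ ρ
  /-- the valuation -/
  V : ℕ → Set (∀ i, A i)

/-- Truth of a formula at the profile `σ` of the submodel of `M` with set of worlds `W`
(a general game model): every diamond quantifies over the profiles `τ ∈ W`,
`⟨≤ᵢ⟩` along `σ ≤ᵢ τ`, `⟨∼ᵢ⟩` along `σ i = τ i` and `⟨≈ᵢ⟩` along `∀ j ≠ i, σ j = τ j`. -/
def Sat (M : FullGameModel.{u} N) (W : Set (∀ i, M.A i)) : Form N → (∀ i, M.A i) → Prop
  | .letter p, σ => σ ∈ M.V p
  | .neg φ, σ => ¬ Sat M W φ σ
  | .or φ ψ, σ => Sat M W φ σ ∨ Sat M W ψ σ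
  | .dia (.le i) φ, σ => ∃ τ ∈ W, M.le i σ τ ∧ Sat M W φ τ
  | .dia (.sim i) φ, σ => ∃ τ ∈ W, σ i = τ i ∧ Sat M W φ τ
  | .dia (.app i) φ, σ => ∃ τ ∈ W, (∀ j, j ≠ i → σ j = τ j) ∧ Sat M W φ τ

/-- The logic `GGM_N`: the formulas true at every world of every general game model. -/
def GGM (N : Type) : Set (Form N) :=
  {φ | ∀ (M : FullGameModel.{u} N) (W : Set (∀ i, M.A i)), W.Nonempty → ∀ σ ∈ W, Sat M W φ σ}

/-- `φ` is an instance of a classical propositional tautology: it is true under every
assignment of truth values to formulas that respects `¬` and `∨`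
(letters and diamond formulas being treated as propositional atoms). -/
def Tautology (φ : Form N) : Prop :=
  ∀ v : Form N → Prop, (∀ ψ, v (neg ψ) ↔ ¬ v ψ) → (∀ ψ χ, v (or ψ χ) ↔ v ψ ∨ v χ) → v φ

/-- The axiom system.  Rules: modus ponens and necessitation.  Axioms: propositional
tautologies; for every modality the axioms K, Dual, T and 4; the axiom B for every `∼ᵢ` and
every `≈ᵢ`; `⟨≈ᵢ⟩φ → ⟨∼ⱼ⟩φ` for `i ≠ j`; and, only if `N = {i, j}` with `i ≠ j`,
`⟨∼ⱼ⟩φ → ⟨≈ᵢ⟩φ`. -/
inductive Provable : Form N → Prop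
  | taut (φ : Form N) : Tautology φ → Provable φ
  | mp (φ ψ : Form N) : Provable (imp φ ψ) → Provable φ → Provable ψ
  | nec (m : Ix N) (φ : Form N) : Provable φ → Provable (box m φ)
  | axK (m : Ix N) (φ ψ : Form N) :
      Provable (imp (box m (imp φ ψ)) (imp (box m φ) (box m ψ)))
  | axDual₁ (m : Ix N) (φ : Form N) : Provable (imp (dia m φ) (neg (box m (neg φ))))
  | axDual₂ (m : Ix N) (φ : Form N) : Provable (imp (neg (box m (neg φ))) (dia m φ))
  | axT (m : Ix N) (φ : Form N) : Provable (imp φ (dia m φ))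
  | ax4 (m : Ix N) (φ : Form N) : Provable (imp (dia m (dia m φ)) (dia m φ))
  | axBsim (i : N) (φ : Form N) : Provable (imp φ (box (.sim i) (dia (.sim i) φ)))
  | axBapp (i : N) (φ : Form N) : Provable (imp φ (box (.app i) (dia (.app i) φ)))
  | axIncl (i j : N) (φ : Form N) : i ≠ j →
      Provable (imp (dia (.app i) φ) (dia (.sim j) φ))
  | axTwo (i j : N) (φ : Form N) : i ≠ j → (∀ k, k = i ∨ k = j) →
      Provable (imp (dia (.sim j) φ) (dia (.app i) φ))

/-! ## Soundness -/

theorem sat_imp {M : FullGameModel.{u} N} {W : Set (∀ i, M.A i)} {φ ψ : Form N}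
    {σ : ∀ i, M.A i} : Sat M W (imp φ ψ) σ ↔ (Sat M W φ σ → Sat M W ψ σ) := by
  simp only [imp, Sat]; tauto

/-- The accessibility relation of the modality `m`. -/
def acc (M : FullGameModel.{u} N) : Ix N → (∀ i, M.A i) → (∀ i, M.A i) → Prop
  | .le i, σ, τ => M.le i σ τ
  | .sim i, σ, τ => σ i = τ i
  | .app i, σ, τ => ∀ j, j ≠ i → σ j = τ j

theorem sat_dia {M : FullGameModel.{u} N} {W : Set (∀ i, M.A i)} {m : Ix N} {φ : Form N}
    {σ : ∀ i, M.A i} : Sat M W (dia m φ) σ ↔ ∃ τ ∈ W, acc M m σ τ ∧ Sat M W φ τ := by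
  cases m <;> simp [Sat, acc]

theorem sat_box {M : FullGameModel.{u} N} {W : Set (∀ i, M.A i)} {m : Ix N} {φ : Form N}
    {σ : ∀ i, M.A i} : Sat M W (box m φ) σ ↔ ∀ τ ∈ W, acc M m σ τ → Sat M W φ τ := by
  simp only [box, Sat, sat_dia]
  push Not
  rfl

theorem acc_refl (M : FullGameModel.{u} N) (m : Ix N) (σ : ∀ i, M.A i) : acc M m σ σ := by
  cases m with
  | le i => exact M.le_refl i σ
  | sim i => rfl
  | app i => exact fun _ _ => rfl

theorem acc_trans (M : FullGameModel.{u} N) (m : Ix N) {σ τ ρ : ∀ i, M.A i}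
    (h₁ : acc M m σ τ) (h₂ : acc M m τ ρ) : acc M m σ ρ := by
  cases m with
  | le i => exact M.le_trans i σ τ ρ h₁ h₂
  | sim i => exact Eq.trans h₁ h₂
  | app i => exact fun j hj => (h₁ j hj).trans (h₂ j hj)

theorem soundness {φ : Form N} (h : Provable φ) (M : FullGameModel.{u} N)
    (W : Set (∀ i, M.A i)) : ∀ σ ∈ W, Sat M W φ σ := by
  induction h with
  | taut φ hφ =>
    intro σ _
    exact hφ (fun ψ => Sat M W ψ σ) (fun _ => Iff.rfl) (fun _ _ => Iff.rfl)
  | mp φ ψ _ _ ih₁ ih₂ => exact fun σ hσ => sat_imp.1 (ih₁ σ hσ) (ih₂ σ hσ)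
  | nec m φ _ ih => exact fun σ _ => sat_box.2 fun τ hτ _ => ih τ hτ
  | axK m φ ψ =>
    intro σ _
    simp only [sat_imp, sat_box]
    exact fun h₁ h₂ τ hτ hm => h₁ τ hτ hm (h₂ τ hτ hm)
  | axDual₁ m φ =>
    intro σ _
    rw [sat_imp]
    show _ → ¬ _
    rw [sat_dia, sat_box]
    rintro ⟨τ, hτ, hm, hs⟩ h
    exact h τ hτ hm hs
  | axDual₂ m φ =>
    intro σ _
    rw [sat_imp]
    show ¬ _ → _
    rw [sat_dia, sat_box]
    intro h
    push Not at h
    obtain ⟨τ, hτ, hm, hs⟩ := h
    exact ⟨τ, hτ, hm, by simpa [Sat] using hs⟩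
  | axT m φ =>
    intro σ hσ
    rw [sat_imp, sat_dia]
    exact fun h => ⟨σ, hσ, acc_refl M m σ, h⟩
  | ax4 m φ =>
    intro σ hσ
    rw [sat_imp, sat_dia, sat_dia]
    rintro ⟨τ, _, hm, hs⟩
    rw [sat_dia] at hs
    obtain ⟨ρ, hρ, hm', hs'⟩ := hs
    exact ⟨ρ, hρ, acc_trans M m hm hm', hs'⟩
  | axBsim i φ =>
    intro σ hσ
    rw [sat_imp, sat_box]
    intro h τ _ hm
    rw [sat_dia]
    exact ⟨σ, hσ, Eq.symm hm, h⟩
  | axBapp i φ =>
    intro σ hσ
    rw [sat_imp, sat_box]
    intro h τ _ hm
    rw [sat_dia]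
    exact ⟨σ, hσ, fun j hj => (hm j hj).symm, h⟩
  | axIncl i j φ hij =>
    intro σ hσ
    rw [sat_imp, sat_dia, sat_dia]
    rintro ⟨τ, hτ, hm, hs⟩
    exact ⟨τ, hτ, hm j (Ne.symm hij), hs⟩
  | axTwo i j φ hij h2 =>
    intro σ hσ
    rw [sat_imp, sat_dia, sat_dia]
    rintro ⟨τ, hτ, hm, hs⟩
    refine ⟨τ, hτ, fun k hk => ?_, hs⟩
    rcases h2 k with h | h
    · exact absurd h hk
    · subst h; exact hm

/-! ## Maximal consistent sets -/

/-- A canonical world: a maximal consistent set, given by its characteristic predicate. -/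
structure World (N : Type) where
  /-- membership in the maximal consistent set -/
  mem : Form N → Prop
  neg_iff : ∀ φ, mem (neg φ) ↔ ¬ mem φ
  or_iff : ∀ φ ψ, mem (or φ ψ) ↔ mem φ ∨ mem ψ
  prov : ∀ φ, Provable φ → mem φ

/-- Conjunction of a finite list of formulas (the empty one being a tautology). -/
def conj : List (Form N) → Form N
  | [] => or (letter 0) (neg (letter 0))
  | φ :: L => conj₂ φ (conj L)

theorem val_imp {v : Form N → Prop} (hn : ∀ ψ, v (neg ψ) ↔ ¬ v ψ)
    (ho : ∀ ψ χ, v (or ψ χ) ↔ v ψ ∨ v χ) (φ ψ : Form N) :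
    v (imp φ ψ) ↔ (v φ → v ψ) := by
  rw [imp, ho, hn]; tauto

theorem val_and {v : Form N → Prop} (hn : ∀ ψ, v (neg ψ) ↔ ¬ v ψ)
    (ho : ∀ ψ χ, v (or ψ χ) ↔ v ψ ∨ v χ) (φ ψ : Form N) :
    v (conj₂ φ ψ) ↔ (v φ ∧ v ψ) := by
  rw [conj₂, hn, ho, hn, hn]; tauto

theorem val_conj {v : Form N → Prop} (hn : ∀ ψ, v (neg ψ) ↔ ¬ v ψ)
    (ho : ∀ ψ χ, v (or ψ χ) ↔ v ψ ∨ v χ) (L : List (Form N)) :
    v (conj L) ↔ ∀ φ ∈ L, v φ := by
  induction L with
  | nil => simp only [conj, ho, hn]; simp; tauto
  | cons a L ih => rw [conj, val_and hn ho, ih]; simp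

theorem World.imp_iff (w : World N) (φ ψ : Form N) :
    w.mem (imp φ ψ) ↔ (w.mem φ → w.mem ψ) := val_imp w.neg_iff w.or_iff φ ψ

theorem World.mp (w : World N) {φ ψ : Form N} (h : Provable (imp φ ψ)) (hφ : w.mem φ) :
    w.mem ψ := (w.imp_iff φ ψ).1 (w.prov _ h) hφ

theorem provable_conj (L : List (Form N)) (h : ∀ φ ∈ L, Provable φ) : Provable (conj L) := by
  induction L with
  | nil =>
    refine Provable.taut _ fun v hn ho => ?_
    rw [val_conj hn ho]; simp
  | cons a L ih =>
    have h₁ : Provable a := h a (by simp)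
    have h₂ : Provable (conj L) := ih fun φ hφ => h φ (by simp [hφ])
    have h₃ : Provable (imp a (imp (conj L) (conj (a :: L)))) := by
      refine Provable.taut _ fun v hn ho => ?_
      rw [val_imp hn ho, val_imp hn ho, conj, val_and hn ho]
      tauto
    exact Provable.mp _ _ (Provable.mp _ _ h₃ h₁) h₂

/-- A set of formulas is consistent if no finite conjunction of its members is refutable. -/
def Consistent (Γ : Set (Form N)) : Prop :=
  ∀ L : List (Form N), (∀ φ ∈ L, φ ∈ Γ) → ¬ Provable (neg (conj L))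

/-- Lindenbaum's lemma (proved with an ultrafilter). -/
theorem lindenbaum (Γ : Set (Form N)) (hΓ : Consistent Γ) :
    ∃ w : World N, ∀ φ ∈ Γ, w.mem φ := by
  classical
  -- every finite set of formulas in `Γ ∪ provable` has a valuation
  have key : ∀ F : Finset (Form N), ∃ v : Form N → Prop, (∀ ψ, v (neg ψ) ↔ ¬ v ψ) ∧
      (∀ ψ χ, v (or ψ χ) ↔ v ψ ∨ v χ) ∧ ∀ φ ∈ F, (φ ∈ Γ ∨ Provable φ) → v φ := by
    intro F
    by_contra hcon
    push Not at hcon
    set L₁ := (F.filter (fun φ => φ ∈ Γ)).toList with hL₁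
    set L₂ := (F.filter (fun φ => Provable φ)).toList with hL₂
    have h₂ : Provable (conj L₂) := provable_conj L₂ (by
      intro φ hφ
      rw [hL₂, Finset.mem_toList, Finset.mem_filter] at hφ
      exact hφ.2)
    have h₃ : Provable (imp (conj L₂) (neg (conj L₁))) := by
      refine Provable.taut _ fun v hn ho => ?_
      rw [val_imp hn ho, hn, val_conj hn ho, val_conj hn ho]
      intro hv₂ hv₁
      obtain ⟨φ, hφF, hφ, hvφ⟩ := hcon v hn ho
      rcases hφ with hφ | hφ
      · exact hvφ (hv₁ φ (by rw [hL₁, Finset.mem_toList, Finset.mem_filter]; exact ⟨hφF, hφ⟩))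
      · exact hvφ (hv₂ φ (by rw [hL₂, Finset.mem_toList, Finset.mem_filter]; exact ⟨hφF, hφ⟩))
    refine hΓ L₁ ?_ (Provable.mp _ _ h₃ h₂)
    intro φ hφ
    rw [hL₁, Finset.mem_toList, Finset.mem_filter] at hφ
    exact hφ.2
  choose v hn ho hv using key
  let U : Ultrafilter (Finset (Form N)) := Ultrafilter.of Filter.atTop
  have hU : ∀ φ : Form N, ∀ᶠ F in (U : Filter (Finset (Form N))), φ ∈ F := by
    intro φ
    have h : ∀ᶠ F in (Filter.atTop : Filter (Finset (Form N))), φ ∈ F := by
      filter_upwards [Filter.eventually_ge_atTop ({φ} : Finset (Form N))] with F hF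
      exact hF (by simp)
    exact (Ultrafilter.of_le Filter.atTop) h
  refine ⟨⟨fun φ => ∀ᶠ F in (U : Filter (Finset (Form N))), v F φ, ?_, ?_, ?_⟩, ?_⟩
  · intro φ
    rw [← Ultrafilter.eventually_not]
    exact Filter.eventually_congr (Filter.Eventually.of_forall fun F => hn F φ)
  · intro φ ψ
    rw [← Ultrafilter.eventually_or]
    exact Filter.eventually_congr (Filter.Eventually.of_forall fun F => ho F φ ψ)
  · intro φ hφ
    filter_upwards [hU φ] with F hF
    exact hv F φ hF (Or.inr hφ)
  · intro φ hφ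
    show ∀ᶠ F in (U : Filter (Finset (Form N))), v F φ
    filter_upwards [hU φ] with F hF
    exact hv F φ hF (Or.inl hφ)

/-- Canonical accessibility relations. -/
def R (m : Ix N) (w v : World N) : Prop := ∀ φ, v.mem φ → w.mem (dia m φ)

theorem R_refl (m : Ix N) (w : World N) : R m w w := fun φ hφ => w.mp (Provable.axT m φ) hφ

theorem R_trans {m : Ix N} {w v x : World N} (h₁ : R m w v) (h₂ : R m v x) : R m w x :=
  fun φ hφ => w.mp (Provable.ax4 m φ) (h₁ _ (h₂ φ hφ))

theorem R_symm_of {m : Ix N} (hB : ∀ φ : Form N, Provable (imp φ (box m (dia m φ))))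
    {w v : World N} (h : R m w v) : R m v w := by
  intro φ hφ
  by_contra hcon
  have h₁ : w.mem (box m (dia m φ)) := w.mp (hB φ) hφ
  rw [box, w.neg_iff] at h₁
  exact h₁ (h _ ((v.neg_iff _).2 hcon))

theorem R_sim_symm {i : N} {w v : World N} (h : R (.sim i) w v) : R (.sim i) v w :=
  R_symm_of (Provable.axBsim i) h

theorem R_app_symm {i : N} {w v : World N} (h : R (.app i) w v) : R (.app i) v w :=
  R_symm_of (Provable.axBapp i) h

theorem R_incl {i j : N} (hij : i ≠ j) {w v : World N} (h : R (.app i) w v) :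
    R (.sim j) w v := fun φ hφ => w.mp (Provable.axIncl i j φ hij) (h φ hφ)

theorem R_two {i j : N} (hij : i ≠ j) (h2 : ∀ k, k = i ∨ k = j) {w v : World N}
    (h : R (.sim j) w v) : R (.app i) w v :=
  fun φ hφ => w.mp (Provable.axTwo i j φ hij h2) (h φ hφ)

/-- Existence lemma. -/
theorem exists_R {m : Ix N} {w : World N} {φ : Form N} (h : w.mem (dia m φ)) :
    ∃ v : World N, R m w v ∧ v.mem φ := by
  have hcons : Consistent ({φ} ∪ {ψ | w.mem (box m ψ)}) := by
    intro L hL hprov
    -- find a single boxed formula behind `L`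
    have aux : ∀ L : List (Form N), (∀ χ ∈ L, χ ∈ ({φ} ∪ {ψ | w.mem (box m ψ)} : Set (Form N))) →
        ∃ ψ, w.mem (box m ψ) ∧ Provable (imp ψ (imp φ (conj L))) := by
      intro L
      induction L with
      | nil =>
        intro _
        refine ⟨conj [], w.prov _ (Provable.nec _ _ (provable_conj [] (by simp))), ?_⟩
        refine Provable.taut _ fun v hn ho => ?_
        rw [val_imp hn ho, val_imp hn ho]
        tauto
      | cons a L ih =>
        intro hL
        obtain ⟨ψ, hψ, hp⟩ := ih fun χ hχ => hL χ (by simp [hχ])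
        rcases hL a (by simp) with ha | ha
        · -- `a = φ`
          have ha : a = φ := ha
          subst ha
          refine ⟨ψ, hψ, ?_⟩
          refine Provable.mp _ _ (Provable.taut _ fun v hn ho => ?_) hp
          simp only [val_imp hn ho, conj, val_and hn ho]
          tauto
        · -- `a` is boxed
          have ha : w.mem (box m a) := ha
          refine ⟨conj₂ a ψ, ?_, ?_⟩
          · have h₁ : Provable (box m (imp a (imp ψ (conj₂ a ψ)))) := by
              refine Provable.nec _ _ (Provable.taut _ fun v hn ho => ?_)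
              simp only [val_imp hn ho, val_and hn ho]
              tauto
            have h₂ := w.mp (Provable.axK m _ _) (w.prov _ h₁)
            have h₃ := (w.imp_iff _ _).1 h₂ ha
            have h₄ := w.mp (Provable.axK m _ _) h₃
            exact (w.imp_iff _ _).1 h₄ hψ
          · refine Provable.mp _ _ (Provable.taut _ fun v hn ho => ?_) hp
            simp only [val_imp hn ho, conj, val_and hn ho]
            tauto
    obtain ⟨ψ, hψ, hp⟩ := aux L hL
    have h₁ : Provable (imp ψ (neg φ)) := by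
      refine Provable.mp _ _ (Provable.mp _ _ (Provable.taut _ fun v hn ho => ?_) hp) hprov
      simp only [val_imp hn ho, hn]
      tauto
    have h₂ := w.mp (Provable.axK m _ _) (w.prov _ (Provable.nec m _ h₁))
    have h₃ := (w.imp_iff _ _).1 h₂ hψ
    have h₄ := w.mp (Provable.axDual₁ m φ) h
    exact ((w.neg_iff _).1 h₄) h₃
  obtain ⟨v, hv⟩ := lindenbaum _ hcons
  refine ⟨v, ?_, hv φ (Or.inl rfl)⟩
  intro χ hχ
  by_contra hcon
  -- then `w ∋ [m]¬χ`
  have h₁ : w.mem (box m (neg χ)) := by
    by_contra h₂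
    exact hcon (w.mp (Provable.axDual₂ m χ) ((w.neg_iff _).2 h₂))
  have h₂ := hv (neg χ) (Or.inr h₁)
  exact ((v.neg_iff _).1 h₂) hχ

/-! ## Unravelling -/

/-- Nodes of the unravelling: finite sequences of labelled steps, the most recent step first. -/
abbrev Node (N : Type) := List (Ix N × World N)

/-- The canonical world at which a node ends. -/
def last (w₀ : World N) : Node N → World N
  | [] => w₀
  | (_, v) :: _ => v

open Classical in
/-- Go up along steps with labels in `D` (that are genuine canonical steps) as long as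
possible. -/
noncomputable def root (w₀ : World N) (D : Ix N → Prop) : Node N → Node N
  | [] => []
  | (m, v) :: p => if D m ∧ R m (last w₀ p) v then root w₀ D p else (m, v) :: p

/-- The labels along which player `j` cannot tell the difference. -/
def Dj (j : N) : Ix N → Prop
  | .le _ => False
  | .sim k => k = j
  | .app k => k ≠ j

theorem root_cons_pos {w₀ : World N} {D : Ix N → Prop} {m : Ix N} {v : World N} {p : Node N}
    (h : D m ∧ R m (last w₀ p) v) : root w₀ D ((m, v) :: p) = root w₀ D p := by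
  rw [root, if_pos h]

theorem root_cons_neg {w₀ : World N} {D : Ix N → Prop} {m : Ix N} {v : World N} {p : Node N}
    (h : ¬ (D m ∧ R m (last w₀ p) v)) : root w₀ D ((m, v) :: p) = (m, v) :: p := by
  rw [root, if_neg h]

theorem root_length (w₀ : World N) (D : Ix N → Prop) (p : Node N) :
    root w₀ D p = p ∨ (root w₀ D p).length < p.length := by
  induction p with
  | nil => left; rfl
  | cons a p ih =>
    obtain ⟨m, v⟩ := a
    by_cases h : D m ∧ R m (last w₀ p) v
    · right
      rw [root_cons_pos h]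
      rcases ih with ih | ih
      · rw [ih]; simp
      · exact ih.trans (by simp)
    · left
      exact root_cons_neg h

/-- Player `j` cannot distinguish a node from its `Dj j`-root. -/
theorem R_root (w₀ : World N) (j : N) (p : Node N) :
    R (.sim j) (last w₀ (root w₀ (Dj j) p)) (last w₀ p) := by
  induction p with
  | nil => exact R_refl _ _
  | cons a p ih =>
    obtain ⟨m, v⟩ := a
    by_cases h : Dj j m ∧ R m (last w₀ p) v
    · rw [root_cons_pos h]
      refine R_trans ih ?_
      show R (.sim j) (last w₀ p) v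
      obtain ⟨hm, hR⟩ := h
      cases m with
      | le i => exact absurd hm (by simp [Dj])
      | sim i =>
        have : i = j := hm
        subst this
        exact hR
      | app i => exact R_incl hm hR
    · rw [root_cons_neg h]
      exact R_refl _ _

theorem R_sim_of_root_eq {w₀ : World N} {j : N} {p q : Node N}
    (h : root w₀ (Dj j) p = root w₀ (Dj j) q) : R (.sim j) (last w₀ p) (last w₀ q) := by
  have h₁ := R_sim_symm (R_root w₀ j p)
  rw [h] at h₁
  exact R_trans h₁ (R_root w₀ j q)

/-- If two different nodes have the same roots for all players in `J`, and `q` is not longer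
than `p`, then `p` is nonempty and its last step is labelled within all `Dj j`, `j ∈ J`. -/
theorem step_of_roots {w₀ : World N} {J : N → Prop} {p q : Node N} (hne : p ≠ q)
    (hlen : q.length ≤ p.length) (h : ∀ j, J j → root w₀ (Dj j) p = root w₀ (Dj j) q)
    (hJ : ∃ j, J j) :
    ∃ m v p', p = (m, v) :: p' ∧ (∀ j, J j → Dj j m) ∧ R m (last w₀ p') v := by
  cases p with
  | nil =>
    exfalso
    apply hne
    have : q.length = 0 := by simpa using hlen
    exact (List.length_eq_zero_iff.1 this).symm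
  | cons a p' =>
    obtain ⟨m, v⟩ := a
    have key : ∀ j, J j → Dj j m ∧ R m (last w₀ p') v := by
      intro j hj
      by_contra hcon
      have h₁ := h j hj
      rw [root_cons_neg hcon] at h₁
      rcases root_length w₀ (Dj j) q with h₂ | h₂
      · exact hne (h₁.trans h₂)
      · rw [← h₁] at h₂
        omega
    obtain ⟨j₀, hj₀⟩ := hJ
    exact ⟨m, v, p', rfl, fun j hj => (key j hj).1, (key j₀ hj₀).2⟩

/-- Profiles determine nodes: the intersection of all indistinguishability relations is the
identity. -/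
theorem node_eq_of_roots [Nontrivial N] {w₀ : World N} {p q : Node N}
    (h : ∀ j, root w₀ (Dj j) p = root w₀ (Dj j) q) : p = q := by
  by_contra hne
  have hJ : ∃ j : N, (fun _ : N => True) j := by
    obtain ⟨a, b, _⟩ := exists_pair_ne N
    exact ⟨a, trivial⟩
  have main : ∀ m : Ix N, ¬ ∀ j, Dj j m := by
    intro m hm
    cases m with
    | le i => exact (hm i : False)
    | sim i =>
      obtain ⟨j, hj⟩ := exists_ne i
      exact hj ((hm j : i = j).symm)
    | app i => exact (hm i : i ≠ i) rfl
  rcases le_total q.length p.length with hl | hl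
  · obtain ⟨m, v, p', _, hm, _⟩ := step_of_roots (J := fun _ => True) hne hl (fun j _ => h j) hJ
    exact main m fun j => hm j trivial
  · obtain ⟨m, v, p', _, hm, _⟩ :=
      step_of_roots (J := fun _ => True) (Ne.symm hne) hl (fun j _ => (h j).symm) hJ
    exact main m fun j => hm j trivial

/-- If all players other than `i` have the same roots at `p` and `q`, then the end worlds are
`≈ᵢ`-related in the canonical model. -/
theorem R_app_of_roots [Nontrivial N] {w₀ : World N} {i : N} (n : ℕ) :
    ∀ (p q : Node N), p.length + q.length ≤ n →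
    (∀ j, j ≠ i → root w₀ (Dj j) p = root w₀ (Dj j) q) →
    R (.app i) (last w₀ p) (last w₀ q) := by
  by_cases h2 : ∃ j, i ≠ j ∧ ∀ k, k = i ∨ k = j
  · -- exactly two players
    obtain ⟨j, hij, hk⟩ := h2
    intro p q _ h
    exact R_two hij hk (R_sim_of_root_eq (h j (Ne.symm hij)))
  · -- at least three players
    have hlab : ∀ m : Ix N, (∀ j, j ≠ i → Dj j m) → m = .app i := by
      intro m hm
      obtain ⟨j, hj⟩ := exists_ne i
      cases m with
      | le k => exact (hm j hj : False).elim
      | sim k =>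
        exfalso
        apply h2
        refine ⟨j, Ne.symm hj, fun l => ?_⟩
        by_contra hl
        push Not at hl
        have e₁ : k = j := hm j hj
        have e₂ : k = l := hm l hl.1
        exact hl.2 (e₂.symm.trans e₁)
      | app k =>
        by_contra hk
        have hki : k ≠ i := fun h => hk (by rw [h])
        exact (hm k hki : k ≠ k) rfl
    have hJ : ∃ j, j ≠ i := exists_ne i
    induction n with
    | zero =>
      intro p q hl h
      have hp : p = [] := List.length_eq_zero_iff.1 (by omega)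
      have hq : q = [] := List.length_eq_zero_iff.1 (by omega)
      rw [hp, hq]
      exact R_refl _ _
    | succ n ih =>
      intro p q hl h
      by_cases hne : p = q
      · rw [hne]; exact R_refl _ _
      rcases le_total q.length p.length with hlen | hlen
      · obtain ⟨m, v, p', hp, hm, hR⟩ := step_of_roots hne hlen h hJ
        have hm' := hlab m hm
        subst hm'
        subst hp
        have hroots : ∀ j, j ≠ i → root w₀ (Dj j) p' = root w₀ (Dj j) q := by
          intro j hj
          rw [← h j hj, root_cons_pos ⟨hm j hj, hR⟩]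
        have h₁ := ih p' q (by simp at hl; omega) hroots
        exact R_trans (R_app_symm hR) h₁
      · obtain ⟨m, v, q', hq, hm, hR⟩ :=
          step_of_roots (Ne.symm hne) hlen (fun j hj => (h j hj).symm) hJ
        have hm' := hlab m hm
        subst hm'
        subst hq
        have hroots : ∀ j, j ≠ i → root w₀ (Dj j) p = root w₀ (Dj j) q' := by
          intro j hj
          rw [h j hj, root_cons_pos ⟨hm j hj, hR⟩]
        have h₁ := ih p q' (by simp at hl; omega) hroots
        exact R_trans h₁ hR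

/-! ## Completeness -/

/-- The profile of a node: the action of player `j` is the `Dj j`-root. -/
noncomputable def prof (w₀ : World N) (p : Node N) : N → ULift.{u} (Node N) :=
  fun j => ⟨root w₀ (Dj j) p⟩

theorem prof_injective [Nontrivial N] (w₀ : World N) :
    Function.Injective (prof.{u} w₀) := by
  intro p q h
  refine node_eq_of_roots (w₀ := w₀) fun j => ?_
  have := congrFun h j
  exact congrArg ULift.down this

/-- The canonical world attached to a profile. -/
noncomputable def wd (w₀ : World N) (σ : N → ULift.{u} (Node N)) : World N :=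
  last w₀ (Function.invFun (prof.{u} w₀) σ)

theorem wd_prof [Nontrivial N] (w₀ : World N) (p : Node N) :
    wd w₀ (prof.{u} w₀ p) = last w₀ p := by
  rw [wd, Function.leftInverse_invFun (prof_injective w₀) p]

/-- The full game model built from the unravelling. -/
noncomputable def model (w₀ : World N) : FullGameModel.{u} N where
  A := fun _ => ULift.{u} (Node N)
  nonempty := fun _ => ⟨⟨[]⟩⟩
  le := fun i σ τ => R (.le i) (wd w₀ σ) (wd w₀ τ)
  le_refl := fun _ _ => R_refl _ _
  le_trans := fun _ _ _ _ h₁ h₂ => R_trans h₁ h₂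
  V := fun a => {σ | (wd w₀ σ).mem (letter a)}

theorem truth [Nontrivial N] (w₀ : World N) (φ : Form N) : ∀ p : Node N,
    Sat (model.{u} w₀) (Set.range (prof.{u} w₀)) φ (prof w₀ p) ↔ (last w₀ p).mem φ := by
  induction φ with
  | letter a =>
    intro p
    show (wd w₀ (prof w₀ p)).mem (letter a) ↔ _
    rw [wd_prof]
  | neg φ ih =>
    intro p
    show ¬ _ ↔ _
    rw [ih p, World.neg_iff]
  | or φ ψ ih₁ ih₂ =>
    intro p
    show _ ∨ _ ↔ _
    rw [ih₁ p, ih₂ p, World.or_iff]
  | dia m φ ih =>
    intro p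
    cases m with
    | le i =>
      constructor
      · rintro ⟨τ, ⟨q, rfl⟩, hm, hs⟩
        have hm : R (.le i) (wd w₀ (prof.{u} w₀ p)) (wd w₀ (prof.{u} w₀ q)) := hm
        rw [wd_prof, wd_prof] at hm
        exact hm φ ((ih q).1 hs)
      · intro h
        obtain ⟨v, hR, hv⟩ := exists_R h
        refine ⟨prof w₀ ((.le i, v) :: p), ⟨_, rfl⟩, ?_, (ih _).2 hv⟩
        show R (.le i) (wd w₀ (prof.{u} w₀ p)) (wd w₀ (prof.{u} w₀ ((.le i, v) :: p)))
        rw [wd_prof, wd_prof]
        exact hR
    | sim j =>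
      constructor
      · rintro ⟨τ, ⟨q, rfl⟩, hm, hs⟩
        have hm : root w₀ (Dj j) p = root w₀ (Dj j) q := congrArg ULift.down hm
        exact R_sim_of_root_eq hm φ ((ih q).1 hs)
      · intro h
        obtain ⟨v, hR, hv⟩ := exists_R h
        refine ⟨prof w₀ ((.sim j, v) :: p), ⟨_, rfl⟩, ?_, (ih _).2 hv⟩
        show prof.{u} w₀ p j = prof.{u} w₀ ((.sim j, v) :: p) j
        rw [prof, prof, root_cons_pos ⟨(rfl : j = j), hR⟩]
    | app i =>
      constructor
      · rintro ⟨τ, ⟨q, rfl⟩, hm, hs⟩
        have hm : ∀ j, j ≠ i → root w₀ (Dj j) p = root w₀ (Dj j) q :=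
          fun j hj => congrArg ULift.down (hm j hj)
        exact R_app_of_roots _ p q le_rfl hm φ ((ih q).1 hs)
      · intro h
        obtain ⟨v, hR, hv⟩ := exists_R h
        refine ⟨prof w₀ ((.app i, v) :: p), ⟨_, rfl⟩, ?_, (ih _).2 hv⟩
        intro j hj
        show prof.{u} w₀ p j = prof.{u} w₀ ((.app i, v) :: p) j
        rw [prof, prof, root_cons_pos ⟨(Ne.symm hj : i ≠ j), hR⟩]

theorem completeness [Nontrivial N] {φ : Form N} (h : φ ∈ GGM.{u} N) : Provable φ := by
  by_contra hφ
  have hcons : Consistent ({neg φ} : Set (Form N)) := by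
    intro L hL hprov
    apply hφ
    refine Provable.mp _ _ (Provable.taut _ fun v hn ho => ?_) hprov
    rw [val_imp hn ho, hn, val_conj hn ho]
    intro h₁
    by_contra h₂
    apply h₁
    intro χ hχ
    have : χ = neg φ := hL χ hχ
    rw [this, hn]
    exact h₂
  obtain ⟨w₀, hw₀⟩ := lindenbaum _ hcons
  have h₁ : w₀.mem (neg φ) := hw₀ _ rfl
  have h₂ := h (model.{u} w₀) (Set.range (prof.{u} w₀)) ⟨_, ⟨[], rfl⟩⟩ (prof w₀ []) ⟨[], rfl⟩
  rw [truth w₀ φ []] at h₂
  exact (w₀.neg_iff φ).1 h₁ h₂

/-- **The modal logic of general game models.**  For every set `N` of at least two players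
(finite or not), a formula is valid on all general game models for `N` if and only if it is
provable in the axiom system `Provable`: S4 for each `≤ᵢ`, S5 for each `∼ᵢ` and `≈ᵢ`,
`⟨≈ᵢ⟩φ → ⟨∼ⱼ⟩φ` for `i ≠ j`, and `⟨∼ⱼ⟩φ → ⟨≈ᵢ⟩φ` if `N = {i, j}`. -/
theorem result (N : Type) [Nontrivial N] (φ : Form N) : φ ∈ GGM.{u} N ↔ Provable φ :=
  ⟨completeness, fun h M W _ σ hσ => soundness h M W σ hσ⟩

end Pool.Agent.Results.MP_4a7d17_lc.GGMComplete
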